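import Pool.Agent.H743.JL.StmX
import Pool.Agent.H743.JL.T3
import Pool.Agent.H743.JL.QS

/-!
# JX-T32: the sums over the cosets for forms of two kinds (helper122 for helper743)

Adapted from JL/T3.lean (helper295).
-/

set_option autoImplicit false
set_option linter.all false

open scoped Classical

namespace Pool.Agent.H122.JXT32

open Finset Module
open Pool.Agent.H743.JL Pool.Agent.N916.MO
open Pool.Agent.H295.JLT3

/-- the two projections -/
theorem proj {E : Type} [AddCommGroup E] [Module (ZMod 2) E] [Fintype E] {I : Type} [Fintype I]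
    [DecidableEq I] (B : EE E I →ₗ[ZMod 2] EE E I →ₗ[ZMod 2] ZMod 2) (s : Sy I) (sp : Prop)
    (AX AY : Submodule (ZMod 2) E) (hs : sp → Spl B AX AY) :
    ∃ PX PY : EE E I →ₗ[ZMod 2] EE E I,
      (∀ z, PX z ∈ XP I sp AX) ∧ (∀ z, PY z ∈ YP I sp AY) ∧
      (∀ z w, (B + sB s.1 : EE E I →ₗ[ZMod 2] EE E I →ₗ[ZMod 2] ZMod 2) z (PY w) =
        (B + sB s.1 : EE E I →ₗ[ZMod 2] EE E I →ₗ[ZMod 2] ZMod 2) (PX z) w) ∧
      (∀ z w, (B + sB s.1 : EE E I →ₗ[ZMod 2] EE E I →ₗ[ZMod 2] ZMod 2) z (PX w) =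
        (B + sB s.1 : EE E I →ₗ[ZMod 2] EE E I →ₗ[ZMod 2] ZMod 2) (PY z) w) ∧
      (∀ z, (PX z).2.1 = z.2.1) ∧ ∀ z, (PY z).2.2 = z.2.2 := by
  by_cases h : sp
  · have hS := hs h
    obtain ⟨p, hp1, hp2⟩ : ∃ p : E →ₗ[ZMod 2] E, (∀ e, p e ∈ AX) ∧ ∀ e, e - p e ∈ AY := by
      refine ⟨AX.subtype ∘ₗ AX.projectionOnto AY hS.cpl, fun e => Subtype.mem _, fun e => ?_⟩
      rw [← Submodule.projectionOnto_apply_eq_zero_iff hS.cpl, map_sub, LinearMap.comp_apply,
        Submodule.subtype_apply, Submodule.projectionOnto_apply_left, sub_self]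
    let PX : EE E I →ₗ[ZMod 2] EE E I :=
      { toFun := fun z => (p z.1, z.2.1, 0)
        map_add' := by
          intro a b
          ext <;> simp
        map_smul' := by
          intro c a
          ext <;> simp }
    let PY : EE E I →ₗ[ZMod 2] EE E I :=
      { toFun := fun z => (z.1 - p z.1, 0, z.2.2)
        map_add' := by
          intro a b
          ext
          · simp; abel
          · simp
          · simp
        map_smul' := by
          intro c a
          ext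
          · simp [smul_sub]
          · simp
          · simp }
    have hX : ∀ z, PX z ∈ XP I True AX := fun z _ => ⟨hp1 z.1, rfl⟩
    have hY : ∀ z, PY z ∈ YP I True AY := fun z _ => ⟨hp2 z.1, rfl⟩
    have hXX : ∀ z w, (B + sB s.1 : EE E I →ₗ[ZMod 2] EE E I →ₗ[ZMod 2] ZMod 2) (PX z) (PX w) = 0 := by
      intro z w
      rw [LinearMap.add_apply, LinearMap.add_apply, hS.xx _ (hX z) _ (hX w), sB_apply, zero_add]
      refine sum_eq_zero fun k _ => sum_eq_zero fun l _ => ?_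
      have e1 : (PX w).2.2 l = 0 := rfl
      have e2 : (PX z).2.2 l = 0 := rfl
      rw [e1, e2, mul_zero, mul_zero, add_zero, mul_zero]
    have hYY : ∀ z w, (B + sB s.1 : EE E I →ₗ[ZMod 2] EE E I →ₗ[ZMod 2] ZMod 2) (PY z) (PY w) = 0 := by
      intro z w
      rw [LinearMap.add_apply, LinearMap.add_apply, hS.yy _ (hY z) _ (hY w), sB_apply, zero_add]
      refine sum_eq_zero fun k _ => sum_eq_zero fun l _ => ?_
      have e1 : (PY w).2.1 k = 0 := rfl
      have e2 : (PY z).2.1 k = 0 := rfl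
      rw [e1, e2, zero_mul, zero_mul, add_zero, mul_zero]
    have hdec : ∀ z, z = PX z + PY z := by
      intro z
      refine Prod.ext ?_ (Prod.ext ?_ ?_)
      · show z.1 = p z.1 + (z.1 - p z.1)
        abel
      · show z.2.1 = z.2.1 + 0
        rw [add_zero]
      · show z.2.2 = 0 + z.2.2
        rw [zero_add]
    refine ⟨PX, PY, fun z _ => hX z trivial, fun z _ => hY z trivial, ?_, ?_, fun z => rfl,
      fun z => rfl⟩
    · intro z w
      conv_lhs => rw [hdec z, map_add, LinearMap.add_apply, hYY, add_zero]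
      conv_rhs => rw [hdec w, map_add, hXX, zero_add]
    · intro z w
      conv_lhs => rw [hdec z, map_add, LinearMap.add_apply, hXX, zero_add]
      conv_rhs => rw [hdec w, map_add, hYY, add_zero]
  · refine ⟨LinearMap.id, LinearMap.id, fun z h' => absurd h' h, fun z h' => absurd h' h,
      fun z w => rfl, fun z w => rfl, fun z => rfl, fun z => rfl⟩

section
variable {I : Type} [Fintype I] [DecidableEq I]
variable {n : ℕ} {E0 : Fin n → Type} [∀ i, AddCommGroup (E0 i)] [∀ i, Module (ZMod 2) (E0 i)]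
  [∀ i, Fintype (E0 i)]

/-- a vector orthogonal to `Vn B s univ` is a sum of coordinate vectors of the radicals -/
theorem orth2 {B : ∀ i, EE (E0 i) I →ₗ[ZMod 2] EE (E0 i) I →ₗ[ZMod 2] ZMod 2} {s : Sy I}
    {sp : Fin n → Prop} {AX AY : ∀ i, Submodule (ZMod 2) (E0 i)}
    (hs : ∀ i, sp i → Spl (B i) (AX i) (AY i))
    (x : I → ZMod 2) (hx : ∀ v ∈ Vn B s univ, dt v x = 0) :
    ∃ ρ ρ' : ∀ i, EE (E0 i) I, (∀ i, ρ i ∈ KY (B i) s (sp i) (AY i)) ∧
      (∀ i, ρ' i ∈ KX (B i) s (sp i) (AX i)) ∧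
      ∑ i, ((ρ i).2.2 + (ρ' i).2.1) = x := by
  let U : Submodule (ZMod 2) (I → ZMod 2) :=
    { carrier := {y | ∃ ρ ρ' : ∀ i, EE (E0 i) I, (∀ i, ρ i ∈ KY (B i) s (sp i) (AY i)) ∧
        (∀ i, ρ' i ∈ KX (B i) s (sp i) (AX i)) ∧ ∑ i, ((ρ i).2.2 + (ρ' i).2.1) = y}
      add_mem' := by
        rintro _ _ ⟨r, r', h1, h2, rfl⟩ ⟨t, t', h3, h4, rfl⟩
        refine ⟨fun i => r i + t i, fun i => r' i + t' i,
          fun i => (KY (B i) s (sp i) (AY i)).add_mem (h1 i) (h3 i),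
          fun i => (KX (B i) s (sp i) (AX i)).add_mem (h2 i) (h4 i), ?_⟩
        rw [← sum_add_distrib]
        refine sum_congr rfl fun i _ => ?_
        simp only [Prod.snd_add, Prod.fst_add]
        abel
      zero_mem' := by
        refine ⟨fun i => 0, fun i => 0, fun i => (KY (B i) s (sp i) (AY i)).zero_mem,
          fun i => (KX (B i) s (sp i) (AX i)).zero_mem, ?_⟩
        exact sum_eq_zero fun i _ => by simp
      smul_mem' := by
        rintro c _ ⟨r, r', h1, h2, rfl⟩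
        refine ⟨fun i => c • r i, fun i => c • r' i,
          fun i => (KY (B i) s (sp i) (AY i)).smul_mem c (h1 i),
          fun i => (KX (B i) s (sp i) (AX i)).smul_mem c (h2 i), ?_⟩
        rw [smul_sum]
        refine sum_congr rfl fun i _ => ?_
        simp only [Prod.smul_snd, Prod.smul_fst, smul_add] }
  have h1 : x ∈ U := by
    rw [← Subspace.forall_mem_dualAnnihilator_apply_eq_zero_iff U x]
    intro φ hφ
    rw [Submodule.mem_dualAnnihilator] at hφ
    have h2 : ∀ y, φ y = dt (fun k => φ (Pi.single k 1)) y := by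
      intro y
      have e1 : y = ∑ k, y k • (Pi.single k (1 : ZMod 2) : I → ZMod 2) := by
        conv_lhs => rw [← Finset.univ_sum_single y]
        refine sum_congr rfl fun k _ => ?_
        rw [← Pi.single_smul, smul_eq_mul, mul_one]
      conv_lhs => rw [e1, map_sum]
      unfold dt
      exact sum_congr rfl fun k _ => by rw [map_smul, smul_eq_mul, mul_comm]
    rw [h2]
    refine hx _ ?_
    rw [mem_Vn]
    intro i _ z hz
    rw [← h2, ← h2]
    obtain ⟨PX, PY, hP1, hP2, hP3, hP4, hP5, hP6⟩ := proj (B i) s (sp i) (AX i) (AY i) (hs i)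
    have hzX : PX z ∈ KX (B i) s (sp i) (AX i) := by
      refine ⟨mem_Rd.2 fun w => ?_, hP1 z⟩
      rw [← hP3]
      exact mem_Rd.1 hz _
    have hzY : PY z ∈ KY (B i) s (sp i) (AY i) := by
      refine ⟨mem_Rd.2 fun w => ?_, hP2 z⟩
      rw [← hP4]
      exact mem_Rd.1 hz _
    rw [← hP5 z, ← hP6 z]
    constructor
    · refine hφ _ ⟨fun j => 0, Function.update (fun j => 0) i (PX z),
        fun j => (KY (B j) s (sp j) (AY j)).zero_mem, ?_, ?_⟩
      · intro j
        by_cases hj : j = i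
        · subst hj
          rw [Function.update_self]
          exact hzX
        · rw [Function.update_of_ne hj]
          exact (KX (B j) s (sp j) (AX j)).zero_mem
      · rw [Finset.sum_eq_single i]
        · rw [Function.update_self]
          simp
        · intro j _ hj
          rw [Function.update_of_ne hj]
          simp
        · intro h
          exact absurd (mem_univ i) h
    · refine hφ _ ⟨Function.update (fun j => 0) i (PY z), fun j => 0, ?_,
        fun j => (KX (B j) s (sp j) (AX j)).zero_mem, ?_⟩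
      · intro j
        by_cases hj : j = i
        · subst hj
          rw [Function.update_self]
          exact hzY
        · rw [Function.update_of_ne hj]
          exact (KY (B j) s (sp j) (AY j)).zero_mem
      · rw [Finset.sum_eq_single i]
        · rw [Function.update_self]
          simp
        · intro j _ hj
          rw [Function.update_of_ne hj]
          simp
        · intro h
          exact absurd (mem_univ i) h
  exact h1

/-- linear representing vectors in the two halves -/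
theorem repX2 {E : Type} [AddCommGroup E] [Module (ZMod 2) E] [Fintype E]
    (B : EE E I →ₗ[ZMod 2] EE E I →ₗ[ZMod 2] ZMod 2) (s : Sy I) (sp : Prop)
    (AX AY : Submodule (ZMod 2) E) (hs : sp → Spl B AX AY)
    (hB : ∀ z, B z z = 0) : ∃ wx wy : (I → ZMod 2) →ₗ[ZMod 2] EE E I,
      (∀ v : I → ZMod 2, (∀ z ∈ Rd B s, dt v z.2.1 = 0 ∧ dt v z.2.2 = 0) →
      (∀ z, (B + sB s.1 : EE E I →ₗ[ZMod 2] EE E I →ₗ[ZMod 2] ZMod 2) z (wx v) = dt v z.2.1) ∧
      ∀ z, (B + sB s.1 : EE E I →ₗ[ZMod 2] EE E I →ₗ[ZMod 2] ZMod 2) z (wy v) = dt v z.2.2) ∧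
      (∀ v, wx v ∈ YP I sp AY) ∧ ∀ v, wy v ∈ XP I sp AX := by
  obtain ⟨wx, wy, hw⟩ := repX B s hB
  obtain ⟨PX, PY, hP1, hP2, hP3, hP4, hP5, hP6⟩ := proj B s sp AX AY hs
  refine ⟨PY ∘ₗ wx, PX ∘ₗ wy, fun v hv => ⟨fun z => ?_, fun z => ?_⟩, fun v => hP2 _,
    fun v => hP1 _⟩
  · rw [LinearMap.comp_apply, hP3, (hw v hv).1, hP5]
  · rw [LinearMap.comp_apply, hP4, (hw v hv).2, hP6]

variable {B : ∀ i, EE (E0 i) I →ₗ[ZMod 2] EE (E0 i) I →ₗ[ZMod 2] ZMod 2} {s : Sy I}
  {W : Finset (Fin n)} {wx wy : ∀ i, (I → ZMod 2) →ₗ[ZMod 2] EE (E0 i) I}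

theorem hsol2 {sp : Fin n → Prop} {AX AY : ∀ i, Submodule (ZMod 2) (E0 i)}
    (hs : ∀ i, sp i → Spl (B i) (AX i) (AY i)) (hB : ∀ i z, B i z z = 0)
    (hwx : ∀ i, ∀ v : I → ZMod 2, (∀ z ∈ Rd (B i) s, dt v z.2.1 = 0 ∧ dt v z.2.2 = 0) →
      (∀ z, (B i + sB s.1 : EE (E0 i) I →ₗ[ZMod 2] EE (E0 i) I →ₗ[ZMod 2] ZMod 2) z (wx i v) =
        dt v z.2.1) ∧
      ∀ z, (B i + sB s.1 : EE (E0 i) I →ₗ[ZMod 2] EE (E0 i) I →ₗ[ZMod 2] ZMod 2) z (wy i v) =
        dt v z.2.2)
    (hwX : ∀ i v, wx i v ∈ YP I (sp i) (AY i)) (hwY : ∀ i v, wy i v ∈ XP I (sp i) (AX i))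
    {gg : (I → ZMod 2) →ₗ[ZMod 2] (I → ZMod 2)}
    (hgg : ∀ v, gg v = ∑ i ∈ W, ((wy i v).2.1 + (wx i v).2.2))
    {h : I → ZMod 2} (hh : h ∈ Vn B s W) (h0 : ∀ v ∈ Vn B s univ, dt v (gg h) = 0) :
    ∃ z z', Cw2 B s sp AX AY W h z z' := by
  obtain ⟨ρ, ρ', h1, h2, h3⟩ := orth2 (B := B) (s := s) hs (gg h) h0
  have hbρ : ∀ i w, (B i + sB s.1 : EE (E0 i) I →ₗ[ZMod 2] EE (E0 i) I →ₗ[ZMod 2] ZMod 2) w
      (ρ i) = 0 := fun i w => by rw [hsymm hB]; exact mem_Rd.1 (h1 i).1 w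
  have hbρ' : ∀ i w, (B i + sB s.1 : EE (E0 i) I →ₗ[ZMod 2] EE (E0 i) I →ₗ[ZMod 2] ZMod 2) w
      (ρ' i) = 0 := fun i w => by rw [hsymm hB]; exact mem_Rd.1 (h2 i).1 w
  refine ⟨fun i => (if i ∈ W then wx i h else 0) + ρ i,
    fun i => (if i ∈ W then wy i h else 0) + ρ' i, ⟨?_, ?_, ?_⟩, ?_, ?_⟩
  · intro i w
    rw [map_add, hbρ, add_zero]
    split_ifs with hi
    · rw [(hwx i h (hh i hi)).1, one_mul]
    · rw [map_zero, zero_mul]
  · intro i w
    rw [map_add, hbρ', add_zero]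
    split_ifs with hi
    · rw [(hwx i h (hh i hi)).2, one_mul]
    · rw [map_zero, zero_mul]
  · intro k
    have h4 := congrFun h3 k
    rw [hgg] at h4
    simp only [Finset.sum_apply, Pi.add_apply] at h4
    have h5 : ∀ i, ((((if i ∈ W then wx i h else 0) + ρ i).2.2 k +
        ((if i ∈ W then wy i h else 0) + ρ' i).2.1 k) : ZMod 2) =
        (if i ∈ W then (wy i h).2.1 k + (wx i h).2.2 k else 0) +
          ((ρ i).2.2 k + (ρ' i).2.1 k) := by
      intro i
      split_ifs with hi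
      · have e1 : (wx i h + ρ i).2.2 k = (wx i h).2.2 k + (ρ i).2.2 k := rfl
        have e2 : (wy i h + ρ' i).2.1 k = (wy i h).2.1 k + (ρ' i).2.1 k := rfl
        rw [e1, e2]
        ring
      · rw [zero_add, zero_add, zero_add]
    rw [sum_congr rfl fun i _ => h5 i, sum_add_distrib, h4, Finset.sum_ite_mem, univ_inter, MO_aa]
  · intro i
    refine (YP I (sp i) (AY i)).add_mem ?_ (h1 i).2
    split_ifs
    · exact hwX i h
    · exact (YP I (sp i) (AY i)).zero_mem
  · intro i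
    refine (XP I (sp i) (AX i)).add_mem ?_ (h2 i).2
    split_ifs
    · exact hwY i h
    · exact (XP I (sp i) (AX i)).zero_mem
where
  MO_aa {a : ZMod 2} : a + a = 0 := aa a

end

theorem t_T32' (hQ : S_QS) : S_T32 := by
  intro n E0 _ _ _ I _ _ B s sp AX AY W a hB hs hW ha
  choose wx wy hwx hwX hwY using fun i => repX2 (B i) s (sp i) (AX i) (AY i) (hs i) (hB i)
  obtain ⟨gg, hgg⟩ := exgg W wx wy
  obtain ⟨β, hβ⟩ := exβ (Vn B s W) gg
  have hle : Vn B s univ ≤ Vn B s W := fun v hv i _ z hz => hv i (mem_univ i) z hz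
  have hqq : ∀ v ∈ Vn B s W, ∏ i ∈ W, sgn (qq (B i) s v) = sgn (∑ i ∈ W, dt v (wx i v).2.2) := by
    intro v hv
    rw [sgn_sum]
    refine prod_congr rfl fun i hi => ?_
    rw [qq_eq (B i) s (hB i) v (hv i hi) (wx i v) (hwx i v (hv i hi)).1]
  obtain ⟨V1, hV1⟩ : ∃ V1 : Submodule (ZMod 2) (Vn B s W), ∀ h : Vn B s W,
      h ∈ V1 ↔ h.1 ∈ Vn B s univ := ⟨(Vn B s univ).comap (Vn B s W).subtype, fun h =>
    Submodule.mem_comap⟩
  have hmain := hQ (Vn B s W) (fun v => ∑ i ∈ W, dt v.1 (wx i v.1).2.2) β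
    (fun v w => (hpol hB hwx hgg v.2 w.2).trans (by rw [hβ])) V1 ⟨a, ha⟩
  obtain ⟨e, he⟩ : ∃ e : V1 ≃ Vn B s univ, ∀ h : V1, (e h).1 = h.1.1 :=
    ⟨{ toFun := fun h => ⟨h.1.1, (hV1 h.1).1 h.2⟩
       invFun := fun h => ⟨⟨h.1, hle h.2⟩, (hV1 ⟨h.1, hle h.2⟩).2 h.2⟩
       left_inv := fun h => Subtype.ext (Subtype.ext rfl)
       right_inv := fun h => Subtype.ext rfl }, fun h => rfl⟩
  have hsum : ∑ h : V1,
      sgn ((fun v : Vn B s W => ∑ i ∈ W, dt v.1 (wx i v.1).2.2) (⟨a, ha⟩ + h)) =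
      ∑ h : Vn B s univ, ∏ i ∈ W, sgn (qq (B i) s (a + h)) := by
    refine Fintype.sum_equiv e _ _ fun h => ?_
    rw [he]
    rw [hqq (a + h.1.1) ((Vn B s W).add_mem ha h.1.2)]
    simp only [Submodule.coe_add]
  have hcard : Fintype.card V1 = Fintype.card (Vn B s univ) := Fintype.card_congr e
  rw [hsum, hcard] at hmain
  refine hmain.trans ?_
  refine mul_le_mul_of_nonneg_left ?_ (Nat.cast_nonneg _)
  rw [Nat.cast_le]
  have hinj : Function.Injective (fun h : V1 => (h.1.1 : I → ZMod 2)) := by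
    intro x y hxy
    exact Subtype.ext (Subtype.ext hxy)
  rw [← Finset.card_image_of_injective _ hinj]
  unfold NW2
  refine le_trans (Finset.card_le_card ?_) (Finset.card_image_le (f := Prod.fst))
  intro v hv
  obtain ⟨h, hh, rfl⟩ := Finset.mem_image.1 hv
  have hh2 := (Finset.mem_filter.1 hh).2
  obtain ⟨z, z', hz⟩ := hsol2 hs hB hwx hwX hwY hgg h.1.2 fun v hv => by
    have := hh2 ⟨⟨v, hle hv⟩, (hV1 _).2 hv⟩
    rw [hβ] at this
    exact this
  exact Finset.mem_image.2 ⟨(h.1.1, z, z'), Finset.mem_filter.2 ⟨mem_univ _, hz⟩, rfl⟩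

theorem t_T32 : S_T32 := t_T32' Pool.Agent.H348.JL.t_QS

end Pool.Agent.H122.JXT32
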